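import Pool.Agent.H88C.Main
import Pool.Agent.H62P.Pkg
import Pool.Agent.H6T.Lab2

/-! The data of the count (`H88C.Dat`) from the situation outside a longest cycle. -/

set_option autoImplicit false

namespace Pool.Agent.H82M

open List Pool.Agent.TF82 Pool.Agent.TFC Pool.Agent.TFB Pool.Agent.EG31 Pool.Agent.H18C
  Pool.Agent.H62P Pool.Agent.TFN Pool.Agent.TFG Pool.Agent.H72N Pool.Agent.H6T.Lab

universe u

set_option linter.unusedSectionVars false
set_option linter.unusedVariables false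

variable {V : Type u} [Fintype V] [DecidableEq V]

/-- the situation outside a longest cycle: `K` represents the components that are not contained
in `W` -/
structure Sit (G : SimpleGraph V) [DecidableRel G.Adj] (W : Finset V) (F : List (List V))
    (K : Finset V) (m B : V → ℕ) (I : V → Finset V) : Prop where
  hM : IsMax G F.length F
  hF1 : F.length = 1
  h2 : Conn2 G Finset.univ
  KU : K ⊆ unc F
  no : ∀ y ∈ K, ∀ y' ∈ K, y ≠ y' → y' ∉ comp G F y
  hm : ∀ y ∈ K, 1 ≤ m y
  pk : ∀ y ∈ K, Pkg G (comp G F y) (Sp G W F (comp G F y)) (B y) (m y) (I y)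
  kb : ∀ y ∈ K, Kb G (comp G F y) (Sp G W F (comp G F y)) (B y)
  hB : ∀ y ∈ K, ∑ z ∈ K.erase y, m z + (W ∩ F.flatten.toFinset).card ≤ B y
  hN : K.card + 2 + (W ∩ F.flatten.toFinset).card < F.flatten.toFinset.card

theorem cwg_of_kb {G : SimpleGraph V} [DecidableRel G.Adj] {H S : Finset V} {b : ℕ}
    (h : Kb G H S b) : CWg G H S b := by
  intro J hJ hind v hv hc
  exact h.sur J hJ hind v hv ⟨(Finset.mem_sdiff.1 (hJ hv)).1, (Finset.mem_sdiff.1 (hJ hv)).2, hc⟩

/-- a vertex of the cycle that sees a good vertex `u` of a component has another neighbour in it,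
in another cluster -/
theorem good_nb {G : SimpleGraph V} {W : Finset V} {F : List (List V)} {Z : Finset V}
    {u w : V} (hu : Good G Z (Sp G W F Z) u) (hw : w ∈ F.flatten) (hwu : G.Adj w u) :
    ∃ x ∈ Z, x ≠ u ∧ G.Adj w x := by
  by_contra hcon
  push Not at hcon
  apply hu.nS
  refine Finset.mem_union_right _ (mem_XX.2 ⟨hu.mem, fun hW => hu.nS
    (Finset.mem_union_left _ (Finset.mem_inter.2 ⟨hW, hu.mem⟩)), hu.nc, w, hw, hwu, ?_⟩)
  intro x' hx' hwx'
  by_contra hne
  exact hcon x' hx' hne hwx'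

theorem good_rich {G : SimpleGraph V} {W : Finset V} {F : List (List V)} {Z : Finset V}
    {u w : V} (hu : Good G Z (Sp G W F Z) u) (hw : w ∈ F.flatten) (hwu : G.Adj w u) :
    Rich G W F Z w := by
  obtain ⟨x, hx, hxu, hwx⟩ := good_nb hu hw hwu
  exact ⟨u, hu.mem, x, hx, hwu, hwx, fun hn => hxu (hu.near_eq hn).symm⟩

variable {G : SimpleGraph V} [DecidableRel G.Adj] {W : Finset V} {F : List (List V)}
  {K : Finset V} {m B : V → ℕ} {I : V → Finset V}

/-- every component has a hub different from a given vertex -/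
theorem other_hub (hF : Fam G F) (hF1 : F.length = 1) (h2 : Conn2 G Finset.univ) {y : V}
    (hy : y ∈ unc F) {p : V} (hp : p ∈ F.flatten) : ∃ w ∈ att G F y, w ≠ p := by
  by_contra hcon
  push Not at hcon
  have hq : prv F p ≠ p := iter_ne_one hF hF1 hp 1 le_rfl (by
    obtain ⟨c, rfl⟩ := List.length_eq_one_iff.1 hF1
    have := (hF.cyc c (by simp)).2.1
    simp
    omega)
  have hqF : prv F p ∈ F.flatten := prv_mem hF hp
  have hyp : y ≠ p := fun he => mem_unc.1 hy (he ▸ hp)
  have hr := h2 p (Finset.mem_univ _) y (Finset.mem_erase.2 ⟨hyp, Finset.mem_univ _⟩) (prv F p)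
    (Finset.mem_erase.2 ⟨hq, Finset.mem_univ _⟩)
  have hin : prv F p ∈ comp G F y := by
    refine closed_reach (S := Finset.univ.erase p) (T := comp G F y) ?_ hr
      (mem_comp.2 ⟨hy, Relation.ReflTransGen.refl⟩)
    intro a ha x hx hax
    by_cases hxF : x ∈ F.flatten
    · exact absurd (hcon x (mem_att.2 ⟨hxF, a, (mem_comp.1 ha).2, hax.symm⟩))
        (Finset.mem_erase.1 hx).1
    · have hxU : x ∈ unc F := mem_unc.2 hxF
      exact mem_comp.2 ⟨hxU, Relation.ReflTransGen.tail (mem_comp.1 ha).2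
        ⟨(mem_comp.1 ha).1, hxU, hax⟩⟩
  exact mem_unc.1 (mem_comp.1 hin).1 hqF

namespace Sit

theorem cardC (h : Sit G W F K m B I) : F.flatten.toFinset.card = F.flatten.length :=
  List.toFinset_card_of_nodup h.hM.fam.nod

theorem sum_ge (h : Sit G W F K m B I) {y : V} (hy : y ∈ K) :
    K.card ≤ ∑ z ∈ K.erase y, m z + 1 := by
  have h1 : (K.erase y).card ≤ ∑ z ∈ K.erase y, m z := by
    rw [Finset.card_eq_sum_ones]
    exact Finset.sum_le_sum (fun z hz => h.hm z (Finset.mem_of_mem_erase hz))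
  rw [Finset.card_erase_of_mem hy] at h1
  omega

/-- the data of the count -/
noncomputable def dat (h : Sit G W F K m B I) : H88C.Dat V V where
  C := F.flatten.toFinset
  b := prv F
  K := K
  W := W
  Adj := G.Adj
  A := fun y v => v ∈ att G F y
  str := fun y v => v ∈ F.flatten ∧ Rich G W F (comp G F y) v
  n := fun y v => ((I y).filter (fun u => G.Adj v u)).card
  m := m
  Lk := fun y l s t => Link G F y l s t
  hbC := fun v hv => List.mem_toFinset.2 (prv_mem h.hM.fam (List.mem_toFinset.1 hv))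
  hinj := fun v hv w hw he => prv_inj h.hM.fam (List.mem_toFinset.1 hv)
    (List.mem_toFinset.1 hw) he
  hret := fun v hv i h1 h2 => iter_ne_one h.hM.fam h.hF1 (List.mem_toFinset.1 hv) i h1
    (by rw [← h.cardC]; exact h2)
  htr := fun v hv w hw => by
    rw [h.cardC]
    exact TFA.exists_back h.hM.fam h.hF1 (List.mem_toFinset.1 hv) (List.mem_toFinset.1 hw)
  hN := h.hN
  hsymm := fun y l s t hl => hl.symm
  hmono := fun y l l' s t hll hl => hl.mono hll
  R1 := fun y l s t hl hs ht hne i hi =>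
    link_far h.hM (List.mem_toFinset.1 hs) hl.symm hne i hi
  R3 := fun y l s t hl hs ht hne a c hac =>
    link_nonadj h.hM (List.mem_toFinset.1 hs) (List.mem_toFinset.1 ht) hne hl
      (noRet_of_link h.hM h.hF1 (List.mem_toFinset.1 hs) (List.mem_toFinset.1 ht) hne hl) hac
  R2 := fun y hy y' hy' hyy l l' s t a c hl hs ht hne ha1 hal hc1 hcl hl' => by
    obtain ⟨a, rfl⟩ := Nat.exists_eq_add_of_le' ha1
    obtain ⟨c, rfl⟩ := Nat.exists_eq_add_of_le' hc1
    have hR := noRet_of_link h.hM h.hF1 (List.mem_toFinset.1 hs) (List.mem_toFinset.1 ht) hne hl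
    have := hub3r h.hM hR (List.mem_toFinset.1 hs) (List.mem_toFinset.1 ht) hne (h.KU hy)
      (h.KU hy') (h.no y hy y' hy' hyy) (a := a) (b := c) (by omega) (by omega)
      (fun i hi hia => link_far h.hM (List.mem_toFinset.1 hs) hl.symm hne i (by omega))
      (fun i hi hia => link_far h.hM (List.mem_toFinset.1 ht) hl hne.symm i (by omega)) hl hl'
    omega
  hm := h.hm
  hnm := fun y hy v hv => by
    rw [← (h.pk y hy).card]
    exact Finset.card_filter_le _ _
  hns := fun y hy v hv hn => by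
    obtain ⟨u, hu⟩ := Finset.card_pos.1 hn
    rw [Finset.mem_filter] at hu
    exact ⟨List.mem_toFinset.1 hv,
      good_rich ((h.pk y hy).good u hu.1) (List.mem_toFinset.1 hv) hu.2⟩
  hsA := fun y hy v hv hs => rich_att hs.2 hs.1
  htwo := fun y hy => by
    obtain ⟨p, hp⟩ : ∃ p, p ∈ F.flatten := by
      obtain ⟨c, rfl⟩ := List.length_eq_one_iff.1 h.hF1
      have := (h.hM.fam.cyc c (by simp)).2.1
      obtain ⟨p, hp⟩ := List.exists_mem_of_length_pos (l := c) (by omega)
      exact ⟨p, by simpa using hp⟩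
    obtain ⟨w, hw, -⟩ := other_hub h.hM.fam h.hF1 h.h2 (h.KU hy) hp
    obtain ⟨w', hw', hne⟩ := other_hub h.hM.fam h.hF1 h.h2 (h.KU hy) (mem_att.1 hw).1
    exact ⟨w', List.mem_toFinset.2 (mem_att.1 hw').1, w,
      List.mem_toFinset.2 (mem_att.1 hw).1, hne, hw', hw⟩
  L0 := fun y hy v hv w hw hne hs hA => by
    obtain ⟨q, hq, hwq⟩ := att_nb (h.KU hy) hA
    refine (rich_link' (h.KU hy) (cwg_of_kb (h.kb y hy)) hs.2 hq hwq).mono ?_
    have h1 := h.hB y hy
    have h2 := h.sum_ge hy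
    omega
  F1 := fun y hy v hv w hw hne hn hA => by
    obtain ⟨u, hu, hux⟩ := (h.pk y hy).p1 _ (Finset.filter_subset _ _) (Finset.card_pos.1 hn)
    rw [Finset.mem_filter] at hu
    have hg := (h.pk y hy).good u hu.1
    obtain ⟨x, hx, hxu, hwx⟩ : ∃ x ∈ comp G F y, x ≠ u ∧ G.Adj w x := by
      obtain ⟨q, hq, hwq⟩ := att_nb (h.KU hy) hA
      by_cases hqu : q = u
      · exact good_nb hg (List.mem_toFinset.1 hw) (hqu ▸ hwq)
      · exact ⟨q, hq, hqu, hwq⟩
    obtain ⟨Q, q1, q2, q3, q4⟩ := hux x hx hxu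
    refine ⟨Q, u, x, q1, q2, q3, ?_, hu.2, hwx⟩
    have h1 := h.hB y hy
    omega
  F2 := fun y hy v hv w hw hne hn hn' => by
    obtain ⟨u, hu, u', hu', huu, Q, q1, q2, q3, q4⟩ := (h.pk y hy).p2 _
      (Finset.filter_subset (fun u => G.Adj v u) _) _
      (Finset.filter_subset (fun u => G.Adj w u) _) (Finset.card_pos.1 (by omega))
      (Finset.card_pos.1 hn') (fun hc => by omega)
    rw [Finset.mem_filter] at hu hu'
    refine ⟨Q, u, u', q1, q2, q3, ?_, hu.2, hu'.2⟩
    have h1 := h.hB y hy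
    omega

end Sit

end Pool.Agent.H82M
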