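import Pool.Agent.H82M.MainS
import Pool.Agent.H18C.CutFin
import Pool.Agent.H62P.TransP

/-! All steps together. -/

set_option autoImplicit false

namespace Pool.Agent.H82M

open Pool.Agent.TF82 Pool.Agent.H62P

universe u

/-- the main step of the general theorem -/
theorem mainStep : MainStep.{u} :=
  mainStep_of_pkg H18C.cutStepP H18C.sideStepP mainStepP transferP

/-- **all `k`, all orders** -/
theorem q1_all {V : Type u} [Fintype V] [DecidableEq V] (G : SimpleGraph V)
    [DecidableRel G.Adj] (k : ℕ)
    (hC : ∀ I : Finset V, G.IsIndepSet (I : Set V) → ∀ v ∈ I,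
      I.card + 1 ≤ dU G Finset.univ v)
    (hσ : ∀ I : Finset V, G.IsIndepSet (I : Set V) → I.card = k + 1 →
      Fintype.card V ≤ ∑ v ∈ I, dU G Finset.univ v) : Cov G k :=
  q1_of_pkg H18C.cutStepP H18C.sideStepP mainStepP transferP G k hC hσ

end Pool.Agent.H82M
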