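import Pool.Agent.P23M.Free
import Pool.Agent.H93L.Parts
import Pool.Agent.H6T.Lab4
import Pool.Agent.H17P.Gam
import Pool.Agent.H35P.Sum
import Pool.Agent.H62P.MainFin
import Pool.Agent.H62P.Comps
import Pool.Agent.H40C.One

/-! The 2-connected step: assembly. -/

set_option autoImplicit false

namespace Pool.Agent.H82M

open List Pool.Agent.TF82 Pool.Agent.TFC Pool.Agent.TFB Pool.Agent.EG31 Pool.Agent.H18C
  Pool.Agent.H62P Pool.Agent.H6T.Lab Pool.Agent.H93L Pool.Agent.P23M

universe u

set_option linter.unusedSectionVars false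
set_option linter.unusedVariables false

theorem cwb_of_kb {V : Type u} [Fintype V] [DecidableEq V] {G : SimpleGraph V}
    [DecidableRel G.Adj] {S : Finset V} {b : ℕ} (hK : Kb G Finset.univ S b)
    (h2 : Conn2 G Finset.univ) : CWb G Finset.univ S b := by
  intro I hI hind v hv
  exact hK.sur I hI hind v hv ⟨Finset.mem_univ _, (Finset.mem_sdiff.1 (hI hv)).2,
    h2 v (Finset.mem_univ _)⟩

/-- **the 2-connected step** -/
theorem mainStepP : MainStepP.{u} := by
  classical
  intro V _ _ G _ S b f hK hf h2 hIH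
  rcases Nat.lt_or_ge f 2 with h1 | hf2
  · have h1 : f = 1 := by
      have := hK.pos hf
      omega
    subst h1
    exact H40C.pkg_one hK h2
  obtain ⟨c, hM⟩ := exists_main_cycle hK.cw hK.ne
  obtain ⟨R, hR⟩ := H62P.exists_reps G [c]
  have hlab : LabP G S b [c] := by
    intro J hJU hJ hJg hJr
    exact lab (F := [c]) (cwb_of_kb hK h2) h2 hM rfl hJU hJ hJg hJr
  obtain ⟨I, bb, hP⟩ := exists_parts hK hf hIH hM hR hlab
  -- the components which are not optional
  set K : Finset V := R.filter (fun y => (comp G [c] y \ S).Nonempty) with hKd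
  have hKR : K ⊆ R := Finset.filter_subset _ _
  have hKn : ∀ y ∈ K, (comp G [c] y \ S).Nonempty := fun y hy => (Finset.mem_filter.1 hy).2
  have hI0 : ∀ y ∈ R, y ∉ K → I y = ∅ := by
    intro y hy hn
    exact hP.emp y hy (fun h => hn (Finset.mem_filter.2 ⟨hy, h⟩))
  have hKne : K.Nonempty := by
    rw [Finset.nonempty_iff_ne_empty]
    intro h0
    have h3 : ∑ y ∈ R, (I y).card = 0 := by
      refine Finset.sum_eq_zero (fun y hy => ?_)
      rw [hI0 y hy (by rw [h0]; simp), Finset.card_empty]
    have h4 := hP.tot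
    omega
  have hc : CycL G c := hM.fam.cyc c (by simp)
  have hWc : ∀ y ∈ R, (S ∩ c.toFinset).card ≤ (S \ comp G [c] y).card := by
    intro y hy
    apply Finset.card_le_card
    intro x hx
    rw [Finset.mem_inter, List.mem_toFinset] at hx
    exact Finset.mem_sdiff.2 ⟨hx.1, fun h => mem_unc.1 (mem_comp.1 h).1 (by simpa using hx.2)⟩
  have hctx : Ctx G S c K (fun y => Sp G S [c] (comp G [c] y)) bb (fun y => (I y).card) I := by
    refine ⟨hM, hK.con, h2, fun y hy => hR.sub (hKR hy), ?_, ?_, ?_, ?_, ?_, ?_, ?_, ?_⟩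
    · intro x hx hxS
      obtain ⟨y, hy, hxy⟩ := hR.cov x hx
      exact ⟨y, Finset.mem_filter.2 ⟨hy, x, Finset.mem_sdiff.2 ⟨hxy, hxS⟩⟩, hxy⟩
    · intro y hy y' hy' hne
      exact hR.dis y (hKR hy) y' (hKR hy') hne
    · intro y hy
      exact hP.kb y (hKR hy) (hKn y hy)
    · intro y hy
      exact hP.pkg y (hKR hy) (hKn y hy)
    · intro y hy
      exact Finset.card_pos.2 (hP.pos y (hKR hy) (hKn y hy))
    · intro y hy
      have h3 := hP.bbd y (hKR hy)
      have h4 := hWc y (hKR hy)
      have h5 : ∑ z ∈ K.erase y, (I z).card ≤ ∑ z ∈ R.erase y, (I z).card :=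
        Finset.sum_le_sum_of_subset (Finset.erase_subset_erase _ hKR)
      show ∑ z ∈ K.erase y, (I z).card + (S ∩ c.toFinset).card ≤ bb y
      omega
    · intro y hy
      exact hP.WS y (hKR hy)
    · intro y hy u hu v hv huv
      by_contra hcon
      push Not at hcon
      refine hv.nS (Finset.mem_union_right _ (mem_XX.2 ⟨hv.mem, fun hS => hv.nS
        (Finset.mem_union_left _ (Finset.mem_inter.2 ⟨hS, hv.mem⟩)), hv.nc, u, by simpa using hu,
        huv, ?_⟩))
      intro x hx hux
      by_contra hne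
      exact hcon x hx hne hux
  obtain ⟨p, hp, hpW, hpn, hcount⟩ := hctx.free hKne
  obtain ⟨hlen, hgam⟩ := H17P.gam_glue (f := f) h2 hM hR
    (S' := fun y => Sp G S [c] (comp G [c] y)) (I := I) (bb := bb)
    (fun y hy hne => hP.pkg y hy (hP.ne_of_mem hy hne.choose_spec)) hP.sur hP.tot hf2
  refine main_fin hK h2 hM hR hP.subW hP.ind hP.clean hP.WS hP.sur hP.p1 hP.p2 hlen hgam hp hpW
    ?_ hP.tot ?_
  · intro y hy v hv
    have hyK : y ∈ K := Finset.mem_filter.2 ⟨hy, hP.ne_of_mem hy hv⟩
    exact H35P.not_adj_members (Z := comp G [c] y) (S' := Sp G S [c] (comp G [c] y)) (I := I y)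
      (fun v hv => hP.good hy hv) (fun v hv hvp => hP.clean y hy v hv p hp hvp) (hpn y hyK) v hv
  · have hfl : ([c] : List (List V)).flatten = c := by simp
    have h3 := H35P.sum_ineq (G := G) (c := c) (R := R) (K := K)
      (S' := fun y => Sp G S [c] (comp G [c] y)) (I := I) hM.fam hR hKR hI0
      (fun y hy => (hP.pkg y (hKR hy) (hKn y hy)).near) (p := p) hpn
      (T := fun y => ∑ v ∈ c.toFinset, ((I y).filter (fun v' => G.Adj v v')).card)
      (nn := (c.toFinset.filter (fun z => z ≠ p ∧ ¬ G.Adj p z)).card)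
      (fun y hy => by
        rw [H35P.double (hP.sub y (hKR hy))]
        apply le_of_eq
        refine Finset.sum_congr rfl (fun w hw => ?_)
        congr 1
        ext v
        rw [Finset.mem_filter, Finset.mem_filter, G.adj_comm]) hp
      (H35P.nn_add hc.1 hp (F := c.toFinset.filter (fun z => z ≠ p ∧ ¬ G.Adj p z)) (by
        intro z
        rw [Finset.mem_filter, List.mem_toFinset]) le_rfl)
      (by
        intro a ha1 ha0
        refine le_trans (Finset.sum_le_sum (fun y hy => ?_)) hcount
        refine Nat.add_le_add_left ?_ _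
        by_cases ha : p ∈ att G [c] y
        · obtain ⟨-, q, hq, hpq⟩ := mem_att.1 ha
          have : 1 ≤ ((comp G [c] y).filter (fun x => G.Adj p x)).card := by
            apply Finset.card_pos.2
            exact ⟨q, Finset.mem_filter.2 ⟨mem_comp.2 ⟨reach_unc (hR.sub (hKR hy)) hq, hq⟩, hpq⟩⟩
          have := ha1 y hy
          omega
        · rw [ha0 y hy ha]
          exact Nat.zero_le _)
    rw [hfl] at h3
    exact h3

end Pool.Agent.H82M
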